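import Pool.Agent.H655R3.HoleFinal

/-!
# The hole probability exponent is not governed by the capacity

For the convex compact sets `K = [-1, 1] × [-ε, ε]` with small `ε` the hole probability exponent of
the Gaussian entire function in `rK` is at most `5000 ε³ r⁴`, while the capacity of `K` stays above
`1/e`. So it is eventually much smaller than `(e²/4) c(K)⁴ r⁴`.
-/

set_option autoImplicit false

open MeasureTheory Set Filter Topology ProbabilityTheory

namespace Pool.Agent.Results.MP_629fb1_pr.ThinRectangles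

open Pool.Agent.H655R3.Hole

lemma rect_eq (ε : ℝ) : rect ε = Icc (-1 : ℝ) 1 ×ℂ Icc (-ε) ε := by
  ext z
  simp only [rect, mem_ofPred_eq, Complex.mem_reProdIm, mem_Icc, abs_le]

lemma rect_compact (ε : ℝ) : IsCompact (rect ε) := by
  rw [rect_eq]
  exact isCompact_Icc.reProdIm isCompact_Icc

lemma rect_connected (ε : ℝ) (hε : 0 < ε) : IsConnected (rect ε) := by
  refine ⟨⟨0, by simp [rect, hε.le]⟩, ?_⟩
  apply Convex.isPreconnected
  intro x hx y hy a b ha hb hab
  refine ⟨?_, ?_⟩
  · have h1 := hx.1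
    have h2 := hy.1
    simp only [Complex.add_re, Complex.smul_re, smul_eq_mul]
    calc |a * x.re + b * y.re| ≤ |a * x.re| + |b * y.re| := abs_add_le _ _
      _ = a * |x.re| + b * |y.re| := by rw [abs_mul, abs_mul, abs_of_nonneg ha, abs_of_nonneg hb]
      _ ≤ a * 1 + b * 1 := by gcongr
      _ = 1 := by linarith
  · have h1 := hx.2
    have h2 := hy.2
    simp only [Complex.add_im, Complex.smul_im, smul_eq_mul]
    calc |a * x.im + b * y.im| ≤ |a * x.im| + |b * y.im| := abs_add_le _ _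
      _ = a * |x.im| + b * |y.im| := by rw [abs_mul, abs_mul, abs_of_nonneg ha, abs_of_nonneg hb]
      _ ≤ a * ε + b * ε := by gcongr
      _ = ε := by rw [← add_mul, hab, one_mul]

lemma rect_interior (ε : ℝ) (hε : 0 < ε) : (interior (rect ε)).Nonempty := by
  refine ⟨0, ?_⟩
  rw [mem_interior]
  refine ⟨{z | |z.re| < 1 ∧ |z.im| < ε}, fun z hz => ⟨hz.1.le, hz.2.le⟩, ?_, by simp [hε]⟩
  have h1 : Continuous fun z : ℂ => |z.re| := by fun_prop
  have h2 : Continuous fun z : ℂ => |z.im| := by fun_prop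
  exact (isOpen_lt h1 continuous_const).inter (isOpen_lt h2 continuous_const)

universe u

/-- For every `δ > 0` and all sufficiently small `ε > 0`, the rectangle `K = [-1,1] × [-ε,ε]`
(compact, connected, with non-empty interior) satisfies, for every Gaussian entire function:
the hole exponent `p_{H,K}(f;r)` is at most `δ (e²/4) c(K)⁴ r⁴` for all large `r`; in particular
`r⁻⁴ p_{H,K}(f;r)` does not converge to `(e²/4) c(K)⁴`. -/
theorem result : ∀ δ : ℝ, 0 < δ → ∃ ε₀ : ℝ, 0 < ε₀ ∧ ∀ ε : ℝ, 0 < ε → ε < ε₀ →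
    IsCompact (rect ε) ∧ IsConnected (rect ε) ∧ (interior (rect ε)).Nonempty ∧
    ∀ (Ω : Type u) [MeasurableSpace Ω] (P : Measure Ω) [IsProbabilityMeasure P]
      (ξ : ℕ → Ω → ℂ), (∀ n, Measurable (ξ n)) → iIndepFun ξ P →
      (∀ n, P.map (ξ n) = stdComplexGaussian) →
      (∀ᶠ r : ℝ in atTop, holeExponent P ξ (rect ε) r ≤
        δ * (Real.exp 2 / 4 * capacity (rect ε) ^ 4) * r ^ 4) ∧
      ¬ Tendsto (fun r : ℝ => holeExponent P ξ (rect ε) r / r ^ 4) atTop
        (𝓝 (Real.exp 2 / 4 * capacity (rect ε) ^ 4)) := by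
  intro δ hδ
  set δ' : ℝ := min δ (1 / 2) with hδ'
  have hδ'0 : 0 < δ' := by positivity
  refine ⟨min 1 (δ' / 150000), by positivity, fun ε hε hε' => ?_⟩
  have hε1 : ε ≤ 1 := (hε'.trans_le (min_le_left _ _)).le
  have hε2 : ε ≤ δ' / 150000 := (hε'.trans_le (min_le_right _ _)).le
  refine ⟨rect_compact ε, rect_connected ε hε, rect_interior ε hε, ?_⟩
  intro Ω _ P _ ξ hm hind hlaw
  have hcap := capacity_ge ε hε.le
  set c : ℝ := Real.exp 2 / 4 * capacity (rect ε) ^ 4 with hc
  -- lower bound of the conjectured constant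
  have hclow : 1 / 30 ≤ c := by
    have h1 : Real.exp (-1) ^ 4 ≤ capacity (rect ε) ^ 4 :=
      pow_le_pow_left₀ (Real.exp_pos _).le hcap 4
    have h2 : Real.exp 2 / 4 * Real.exp (-1) ^ 4 = Real.exp (-1) ^ 2 / 4 := by
      have : Real.exp 2 * Real.exp (-1) ^ 2 = 1 := by
        rw [← Real.exp_nat_mul, ← Real.exp_add]
        norm_num
      calc Real.exp 2 / 4 * Real.exp (-1) ^ 4 =
          (Real.exp 2 * Real.exp (-1) ^ 2) * Real.exp (-1) ^ 2 / 4 := by ring
        _ = _ := by rw [this, one_mul]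
    have h3 : (0.3678 : ℝ) ≤ Real.exp (-1) := by
      have h := Real.exp_one_lt_d9
      have he : Real.exp (-1) * Real.exp 1 = 1 := by rw [← Real.exp_add]; norm_num
      have hp := Real.exp_pos (-1)
      by_contra hlt
      push Not at hlt
      nlinarith
    have h4 : (0.3678 : ℝ) ^ 2 ≤ Real.exp (-1) ^ 2 := pow_le_pow_left₀ (by norm_num) h3 2
    calc (1 / 30 : ℝ) ≤ 0.3678 ^ 2 / 4 := by norm_num
      _ ≤ Real.exp (-1) ^ 2 / 4 := by gcongr
      _ = Real.exp 2 / 4 * Real.exp (-1) ^ 4 := h2.symm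
      _ ≤ c := by rw [hc]; gcongr
  have hc0 : 0 < c := by linarith
  have hev : ∀ᶠ r : ℝ in atTop, holeExponent P ξ (rect ε) r ≤ δ' * c * r ^ 4 := by
    filter_upwards [eventually_ge_atTop (100 / ε ^ 2)] with r hr
    have h1 := hole_upper P ξ hm hind hlaw ε r hε hε1 hr
    refine h1.trans ?_
    have h2 : 5000 * ε ^ 3 ≤ δ' * c := by
      have h3 : ε ^ 3 ≤ ε := by
        have : ε ^ 2 ≤ 1 := by nlinarith
        calc ε ^ 3 = ε ^ 2 * ε := by ring
          _ ≤ 1 * ε := by gcongr
          _ = ε := one_mul ε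
      calc 5000 * ε ^ 3 ≤ 5000 * (δ' / 150000) := by gcongr; exact h3.trans hε2
        _ = δ' * (1 / 30) := by ring
        _ ≤ δ' * c := by gcongr
    have h5 : 0 ≤ r ^ 4 := by positivity
    gcongr
  refine ⟨?_, ?_⟩
  · filter_upwards [hev] with r hr
    refine hr.trans ?_
    have h5 : 0 ≤ r ^ 4 := by positivity
    have : δ' ≤ δ := min_le_left _ _
    gcongr
  · intro hlim
    have hle : c ≤ δ' * c := by
      refine le_of_tendsto hlim ?_
      filter_upwards [hev, eventually_gt_atTop 0] with r hr hr0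
      rw [div_le_iff₀ (by positivity)]
      exact hr
    have : δ' ≤ 1 / 2 := min_le_right _ _
    nlinarith

end Pool.Agent.Results.MP_629fb1_pr.ThinRectangles
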